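import Pool.Agent.Y773.D4.Def
import Pool.Agent.Y773.IQ.Ray

/-!
# Project D4: the twisted characters are not invariant under automorphisms
-/

set_option autoImplicit false

open NumberField

namespace Pool.Agent.Y785.D4

open Pool.Agent.Y773 (TPos)
open Pool.Agent.Y773.G (IsPrimChar)
open Pool.Agent.Y773.IQ
open Pool.Agent.Y773.D4

section

variable {M : Type} [Field M] [NumberField M]

/-- unramified characters are determined by their values at the ideals prime to a given one -/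
theorem uniq_top (hT : ∀ x : 𝓞 M, TPos M x) {𝔮 : Ideal (𝓞 M)} {ψ ψ' : Ideal (𝓞 M) →*₀ ℂ}
    (hq : 𝔮 ≠ ⊥) (h : IsPrimChar M ⊤ ψ) (h' : IsPrimChar M ⊤ ψ')
    (he : ∀ 𝔞, IsCoprime 𝔞 𝔮 → ψ 𝔞 = ψ' 𝔞) : ψ = ψ' := by
  by_cases hq1 : 𝔮 = ⊤
  · ext 𝔞
    apply he
    rw [hq1, Ideal.isCoprime_iff_sup_eq, sup_top_eq]
  ext 𝔞
  by_cases h0 : 𝔞 = ⊥
  · rw [h0, ← Ideal.zero_eq_bot, map_zero, map_zero]
  obtain ⟨x, hx, hx0⟩ := Submodule.exists_mem_ne_zero_of_ne_bot h0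
  obtain ⟨𝔠, h𝔠⟩ := Ideal.dvd_iff_le.mpr ((Ideal.span_singleton_le_iff_mem 𝔞).mpr hx)
  have hc0 : 𝔠 ≠ ⊥ := by
    rintro rfl
    rw [Ideal.mul_bot, Ideal.span_singleton_eq_bot] at h𝔠
    exact hx0 h𝔠
  obtain ⟨y, 𝔟, hy1, hy2, hy3⟩ := exists_moving (𝔣 := ⊤) le_top hq hc0
    (by rw [Ideal.isCoprime_iff_sup_eq, sup_top_eq])
  have hy0 : y ≠ 0 := by
    rintro rfl
    rw [Ideal.span_singleton_eq_bot.mpr rfl] at hy2
    have : 𝔠 = ⊥ ∨ 𝔟 = ⊥ := Ideal.mul_eq_bot.1 hy2.symm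
    rcases this with h1 | h1
    · exact hc0 h1
    · rw [h1, Ideal.isCoprime_iff_sup_eq, bot_sup_eq] at hy3
      exact hq1 hy3
  have e1 : ∀ (φ : Ideal (𝓞 M) →*₀ ℂ), IsPrimChar M ⊤ φ → φ 𝔞 = φ 𝔟 := by
    intro φ hφ
    have h3 := hφ.ray x hx0 Submodule.mem_top (hT _)
    have h4 := hφ.ray y hy0 Submodule.mem_top (hT _)
    rw [h𝔠, map_mul, mul_comm] at h3
    rw [hy2, map_mul] at h4
    have h5 : φ 𝔠 ≠ 0 := by
      intro h6; rw [h6, zero_mul] at h3; exact zero_ne_one h3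
    exact mul_left_cancel₀ h5 (h3.trans h4.symm)
  rw [e1 ψ h, e1 ψ' h', he 𝔟 hy3]

/-- the conjugate character -/
noncomputable def gal (g : M ≃ₐ[ℚ] M) (φ : Ideal (𝓞 M) →*₀ ℂ) : Ideal (𝓞 M) →*₀ ℂ where
  toFun 𝔞 := φ (cj g 𝔞)
  map_zero' := by
    unfold cj
    rw [Ideal.zero_eq_bot, Ideal.map_bot, ← Ideal.zero_eq_bot, map_zero]
  map_one' := by
    unfold cj
    rw [Ideal.one_eq_top, Ideal.map_top, ← Ideal.one_eq_top, map_one]
  map_mul' 𝔞 𝔟 := by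
    unfold cj
    rw [Ideal.map_mul, map_mul]

theorem cop_cj (g : M ≃ₐ[ℚ] M) {𝔞 𝔟 : Ideal (𝓞 M)} (h : IsCoprime 𝔞 𝔟) :
    IsCoprime (cj g 𝔞) (cj g 𝔟) := by
  rw [Ideal.isCoprime_iff_sup_eq] at h ⊢
  unfold cj
  rw [← Ideal.map_sup, h, Ideal.map_top]

theorem cj_span' (g : M ≃ₐ[ℚ] M) (x : 𝓞 M) : cj g (Ideal.span {x}) = Ideal.span {sg g x} := by
  unfold cj
  rw [Ideal.map_span, Set.image_singleton]

theorem cj_ne (g : M ≃ₐ[ℚ] M) {𝔞 : Ideal (𝓞 M)} (h : 𝔞 ≠ ⊥) : cj g 𝔞 ≠ ⊥ := by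
  intro h1
  obtain ⟨x, hx, hx0⟩ := Submodule.exists_mem_ne_zero_of_ne_bot h
  have h2 : sg g x ∈ cj g 𝔞 := Ideal.mem_map_of_mem _ hx
  rw [h1, Submodule.mem_bot] at h2
  exact hx0 ((map_eq_zero_iff (sg g) (sg g).injective).1 h2)

theorem mem_cj (g : M ≃ₐ[ℚ] M) {𝔞 : Ideal (𝓞 M)} {x : 𝓞 M} (h : x ∈ 𝔞) : sg g x ∈ cj g 𝔞 :=
  Ideal.mem_map_of_mem _ h

theorem cj_prime' (g : M ≃ₐ[ℚ] M) {P : Ideal (𝓞 M)} (h : Prime P) : Prime (cj g P) := by
  have h0 : P ≠ ⊥ := h.ne_zero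
  have h1 : P.IsPrime := Ideal.isPrime_of_prime h
  have h2 : (cj g P).IsPrime := Ideal.map_isPrime_of_equiv (sg g)
  exact (Ideal.prime_iff_isPrime (cj_ne g h0)).2 h2

variable [Algebra GaussianInt (𝓞 M)]

theorem prim_gal {σ : M ≃ₐ[ℚ] M} {Nm : Ideal (𝓞 M) →*₀ Ideal GaussianInt}
    (hT : Tls σ Nm) {𝔣 : Ideal (𝓞 M)} {φ : Ideal (𝓞 M) →*₀ ℂ} (h : IsPrimChar M 𝔣 φ) :
    IsPrimChar M (cj σ 𝔣) (gal σ φ) where
  ne_bot := cj_ne σ h.ne_bot
  supp := by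
    intro 𝔞 h𝔞
    refine (h.supp _ (cj_ne σ h𝔞)).trans ⟨fun h1 => ?_, fun h1 => ?_⟩
    · have := cop_cj σ h1
      rwa [hT.cj_cj] at this
    · have := cop_cj σ h1
      rwa [hT.cj_cj] at this
  ray := by
    intro x hx hx1 _
    change φ (cj σ (Ideal.span {x})) = 1
    rw [cj_span']
    refine h.ray _ ?_ ?_ (hT.tpos _)
    · exact fun h0 => hx ((map_eq_zero_iff (sg σ) (sg σ).injective).1 h0)
    · have := mem_cj σ hx1
      rwa [hT.cj_cj, map_sub, map_one] at this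
  prim := by
    intro 𝔤 h1 h2
    have h3 := hT.cj_dvd _ _ h1
    rw [hT.cj_cj] at h3
    have h4 : cj σ 𝔤 ≠ 𝔣 := by
      rintro rfl
      exact h2 (hT.cj_cj _).symm
    obtain ⟨x, hx1, -, hx2, hx3⟩ := h.prim _ h3 h4
    refine ⟨sg σ x, ?_, hT.tpos _, ?_, ?_⟩
    · have := mem_cj σ hx1
      rwa [hT.cj_cj, map_sub, map_one] at this
    · rw [← cj_span']
      exact cop_cj σ hx2
    · change φ (cj σ (Ideal.span {sg σ x})) ≠ 1
      rw [← cj_span', hT.cj_cj]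
      exact hx3

omit [NumberField M] in
theorem alg_eq (z : GaussianInt) : algebraMap GaussianInt (𝓞 M) z =
    (z.re : 𝓞 M) + algebraMap GaussianInt (𝓞 M) ⟨0, 1⟩ * (z.im : 𝓞 M) := by
  conv_lhs => rw [show z = (z.re : GaussianInt) + ⟨0, 1⟩ * (z.im : GaussianInt) from
    Zsqrtd.ext (by simp) (by simp)]
  rw [map_add, map_mul, map_intCast, map_intCast]

omit [NumberField M] in
theorem II : algebraMap GaussianInt (𝓞 M) ⟨0, 1⟩ * algebraMap GaussianInt (𝓞 M) ⟨0, 1⟩ = -1 := by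
  rw [← map_mul, show ((⟨0, 1⟩ : GaussianInt) * ⟨0, 1⟩) = -1 from
    Zsqrtd.ext (by simp) (by simp), map_neg, map_one]

theorem sg_I (g : M ≃ₐ[ℚ] M) :
    (∀ z : GaussianInt, sg g (algebraMap GaussianInt (𝓞 M) z) =
      algebraMap GaussianInt (𝓞 M) z) ∨
    (∀ z : GaussianInt, sg g (algebraMap GaussianInt (𝓞 M) z) =
      algebraMap GaussianInt (𝓞 M) (star z)) := by
  set I : 𝓞 M := algebraMap GaussianInt (𝓞 M) ⟨0, 1⟩ with hI
  have h1 : sg g I * sg g I = -1 := by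
    rw [← map_mul, hI, II, map_neg, map_one]
  have h2 : (sg g I - I) * (sg g I + I) = 0 := by
    have := II (M := M)
    rw [← hI] at this
    linear_combination h1 - this
  have hz : ∀ z : GaussianInt, sg g (algebraMap GaussianInt (𝓞 M) z) =
      (z.re : 𝓞 M) + sg g I * (z.im : 𝓞 M) := by
    intro z
    rw [alg_eq, map_add, map_mul, map_intCast, map_intCast]
  rcases mul_eq_zero.1 h2 with h3 | h3
  · left
    intro z
    rw [hz, sub_eq_zero.1 h3, alg_eq z]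
  · right
    intro z
    rw [hz, eq_neg_of_add_eq_zero_left h3, alg_eq (star z)]
    simp only [Zsqrtd.re_star, Zsqrtd.im_star]
    push_cast
    ring

theorem sg_fix {σ : M ≃ₐ[ℚ] M} {Nm : Ideal (𝓞 M) →*₀ Ideal GaussianInt} (hR : Rel σ Nm)
    (g : M ≃ₐ[ℚ] M) (hg : g ≠ 1) (hz : ∀ z : GaussianInt,
      sg g (algebraMap GaussianInt (𝓞 M) z) = algebraMap GaussianInt (𝓞 M) z) :
    ∀ x, sg g x = sg σ x := by
  obtain ⟨θ, α, r, -, hr, hθ, hσθ, hx⟩ := hR.th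
  have hr0 : algebraMap GaussianInt (𝓞 M) r ≠ 0 := by
    intro h
    exact hr (hR.inj (h.trans (map_zero _).symm))
  have h1 : (sg g θ - θ) * (sg g θ + θ) = 0 := by
    have : sg g θ ^ 2 = θ ^ 2 := by
      rw [← map_pow, hθ, hz]
    linear_combination this
  rcases mul_eq_zero.1 h1 with h2 | h2
  · exfalso
    apply hg
    have h3 : ∀ x, sg g x = x := by
      intro x
      obtain ⟨a, b, hab⟩ := hx x
      have h4 := congrArg (sg g) hab
      rw [map_mul, map_add, map_mul, hz, hz, hz, sub_eq_zero.1 h2, ← hab] at h4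
      exact mul_left_cancel₀ hr0 h4
    ext x
    obtain ⟨a, b, -, rfl⟩ := IsFractionRing.div_surjective (A := 𝓞 M) x
    have h5 : ∀ y : 𝓞 M, g (algebraMap (𝓞 M) M y) = algebraMap (𝓞 M) M y := by
      intro y
      have := congrArg (algebraMap (𝓞 M) M) (h3 y)
      exact this
    rw [map_div₀, h5, h5]
    rfl
  · intro x
    obtain ⟨a, b, hab⟩ := hx x
    have h4 := congrArg (sg g) hab
    have h5 := congrArg (sg σ) hab
    rw [map_mul, map_add, map_mul, hz, hz, hz, eq_neg_of_add_eq_zero_left h2] at h4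
    rw [map_mul, map_add, map_mul, hR.fix, hR.fix, hR.fix, hσθ] at h5
    exact mul_left_cancel₀ hr0 (h4.trans h5.symm)

theorem up_ne {σ : M ≃ₐ[ℚ] M} {Nm : Ideal (𝓞 M) →*₀ Ideal GaussianInt} (hR : Rel σ Nm)
    {q : GaussianInt} (hq : q ≠ 0) : up M q ≠ ⊥ := by
  unfold up
  rw [Ne, Ideal.span_singleton_eq_bot]
  intro h
  exact hq (hR.inj (h.trans (map_zero _).symm))

/-- a divisor of the conjugate of a prime -/
theorem star_dvd {p p' : GaussianInt} (hp : Prime p) (hp' : Prime p') (h : p' ∣ star p) :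
    star p ∣ p' := by
  obtain ⟨c, hc⟩ := h
  have h1 : p = star p' * star c := by
    have := congrArg star hc
    rw [star_star, star_mul] at this
    rw [this, mul_comm]
  rcases hp.irreducible.isUnit_or_isUnit h1 with h2 | h2
  · exfalso
    apply hp'.not_isUnit
    have := h2.star
    rwa [star_star] at this
  · have h3 : IsUnit c := by
      have := h2.star
      rwa [star_star] at this
    rw [hc]
    obtain ⟨u, rfl⟩ := h3
    exact ⟨(↑u⁻¹ : GaussianInt), by rw [mul_assoc, Units.mul_inv, mul_one]⟩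

end

/-- **IRR** for ray class characters, `𝔣 = ⊤` included -/
theorem irr_core {M : Type} [Field M] [NumberField M] [Algebra GaussianInt (𝓞 M)]
    (σ : M ≃ₐ[ℚ] M) (Nm : Ideal (𝓞 M) →*₀ Ideal GaussianInt) (hR : Rel σ Nm) (hT : Tls σ Nm)
    (𝔣 : Ideal (𝓞 M)) (φ : Ideal (𝓞 M) →*₀ ℂ) (hφ : IsPrimChar M 𝔣 φ)
    (hφσ : ∃ 𝔞, φ (cj σ 𝔞) ≠ φ 𝔞) (R : ℕ) (hRf : (R : 𝓞 M) ∈ 𝔣) (q : GaussianInt)
    (χ : GaussianInt →* ℂ) (hχ : GC q χ) (𝔠 : Ideal (𝓞 M)) (ψ : Ideal (𝓞 M) →*₀ ℂ)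
    (hψ : IsPrimChar M 𝔠 ψ) (h𝔠 : 𝔠 ∣ 𝔣 * up M q)
    (hψφ : ∀ 𝔞, IsCoprime 𝔞 (𝔣 * up M q) → ψ 𝔞 = φ 𝔞 * chI χ (Nm 𝔞))
    (hp : ∃ p : GaussianInt, Prime p ∧ p ∣ q ∧ ¬ p ∣ (R : GaussianInt) ∧ ¬ star p ∣ q ∧
      up M p ∣ 𝔠) (g : M ≃ₐ[ℚ] M) (hg : g ≠ 1) : ∃ 𝔞, ψ (cj g 𝔞) ≠ ψ 𝔞 := by
  by_contra hno
  push Not at hno
  rcases sg_I g with hz | hz
  · -- `g` acts on the integers as `σ`
    have hgs := sg_fix hR g hg hz
    have hcj : ∀ 𝔞, cj g 𝔞 = cj σ 𝔞 := by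
      have : sg g = sg σ := RingEquiv.ext hgs
      intro 𝔞
      unfold cj
      rw [this]
    obtain ⟨𝔟, h𝔟⟩ := hφσ
    apply h𝔟
    have hq0 : 𝔣 * cj σ 𝔣 * up M q ≠ ⊥ :=
      mul_ne_zero (mul_ne_zero hφ.ne_bot (cj_ne σ hφ.ne_bot)) (up_ne hR hχ.q0)
    have he : ∀ 𝔞, IsCoprime 𝔞 (𝔣 * cj σ 𝔣 * up M q) → gal σ φ 𝔞 = φ 𝔞 := by
      intro 𝔞 h
      rw [IsCoprime.mul_right_iff, IsCoprime.mul_right_iff] at h
      obtain ⟨⟨h1, h2⟩, h3⟩ := h
      have e1 := hψφ 𝔞 (IsCoprime.mul_right h1 h3)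
      have e2 := hψφ (cj σ 𝔞) (by
        have h4 := cop_cj σ h2
        have h5 := cop_cj σ h3
        rw [hT.cj_cj] at h4
        rw [hT.cj_up] at h5
        exact IsCoprime.mul_right h4 h5)
      rw [hR.nm4, ← hcj, hno, e1, hcj] at e2
      exact (mul_right_cancel₀ ((hT.ne q χ hχ 𝔞).2 h3) e2).symm
    have huniq : gal σ φ = φ := by
      by_cases ht : 𝔣 = ⊤
      · have h1 := prim_gal hT hφ
        subst ht
        have h2 : cj σ (⊤ : Ideal (𝓞 M)) = ⊤ := by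
          unfold cj
          rw [Ideal.map_top]
        rw [h2] at h1
        exact uniq_top hT.tpos hq0 h1 hφ he
      · have ht' : cj σ 𝔣 ≠ ⊤ := by
          intro h
          apply ht
          rw [← hT.cj_cj 𝔣, h]
          unfold cj
          rw [Ideal.map_top]
        refine prim_unique hT.tpos hq0 (prim_gal hT hφ) hφ ?_ ?_ ht' ht he
        · exact dvd_mul_of_dvd_left (dvd_mul_left _ _) _
        · exact dvd_mul_of_dvd_left (dvd_mul_right _ _) _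
    exact congrArg (fun f : Ideal (𝓞 M) →*₀ ℂ => f 𝔟) huniq
  · obtain ⟨p, hp1, hp2, hp3, hp4, hp5⟩ := hp
    have hup : ¬ IsUnit (up M p) := by
      intro h
      have h1 : up M p ∣ up M 1 := h.dvd
      rw [hT.dvd] at h1
      exact hp1.not_isUnit (isUnit_of_dvd_one h1)
    obtain ⟨P, hPi, hPp⟩ := WfDvdMonoid.exists_irreducible_factor hup (up_ne hR hp1.ne_zero)
    have hP := hPi.prime
    have hQ := cj_prime' g hP
    have hψP : ψ P = 0 := by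
      by_contra h
      have h1 := (hψ.supp P hP.ne_zero).1 h
      have h2 : IsUnit P := by
        have h3 : IsCoprime P P := h1.of_isCoprime_of_dvd_right (hPp.trans hp5)
        exact isCoprime_self.1 h3
      exact hP.not_isUnit h2
    have hψQ : ψ (cj g P) = 0 := by rw [hno, hψP]
    have hQc : cj g P ∣ 𝔠 := by
      have h1 : ¬ IsCoprime (cj g P) 𝔠 := fun h => (hψ.supp _ hQ.ne_zero).2 h hψQ
      rw [Ideal.dvd_iff_le]
      have h2 : (cj g P).IsPrime := Ideal.isPrime_of_prime hQ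
      have h3 : (cj g P).IsMaximal := h2.isMaximal hQ.ne_zero
      rw [Ideal.isCoprime_iff_sup_eq] at h1
      have h4 := h3.eq_of_le h1 le_sup_left
      rw [h4]
      exact le_sup_right
    obtain ⟨p', hp'1, hp'2, hp'3⟩ := hT.ovr _ hQ
    have hs : p' ∣ star p := by
      apply hp'3
      have h1 : cj g P ∣ cj g (up M p) := by
        obtain ⟨X, hX⟩ := hPp
        rw [hX]
        unfold cj
        rw [Ideal.map_mul]
        exact dvd_mul_right _ _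
      rwa [up, cj_span', hz] at h1
    have hs' := star_dvd hp1 hp'1 hs
    rcases hQ.dvd_or_dvd (hQc.trans h𝔠) with h1 | h1
    · have h2 : cj g P ∣ up M (R : GaussianInt) := by
        refine h1.trans ?_
        rw [Ideal.dvd_iff_le, up, Ideal.span_singleton_le_iff_mem, map_natCast]
        exact hRf
      have h3 := hs'.trans (hp'3 _ h2)
      apply hp3
      obtain ⟨c, hc⟩ := h3
      refine ⟨star c, ?_⟩
      have := congrArg star hc
      rw [star_mul, star_star, star_natCast] at this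
      rw [this, mul_comm]
    · exact hp4 (hs'.trans (hp'3 _ h1))

theorem toG {M : Type} [Field M] [NumberField M] {𝔣 : Ideal (𝓞 M)} {φ : Ideal (𝓞 M) →*₀ ℂ}
    (h : Pool.Agent.Y773.IsPrimChar M 𝔣 φ) : IsPrimChar M 𝔣 φ :=
  ⟨h.ne_bot, h.supp, fun x _ => h.ray x, h.prim⟩

/-- **IRR** -/
theorem t_irr : St_TL → St_IRR := by
  intro hTL M _ _ _ σ Nm hR 𝔣 φ hφ hφσ R _ hRf q χ hχ 𝔠 ψ hψ h𝔠 hψφ hp g hg
  exact irr_core σ Nm hR (hTL M σ Nm hR) 𝔣 φ (toG hφ) hφσ R hRf q χ hχ 𝔠 ψ (toG hψ) h𝔠 hψφ hp g hg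

end Pool.Agent.Y785.D4
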